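import Pool.Agent.helper48.AN.SpecD

/-! # Project an, module DF: the exchange of variables -/

namespace AN

open scoped Classical
open MvPowerSeries (constantCoeff coeff)

theorem DF_c {k : Type} [Field k] {N : ℕ} (f : LS (BB k N)) (α : Fin N →₀ ℕ) (n : ℤ) :
    cf (coeff α (sw f)) n = coeff α (cf f n) := rfl

theorem DF_ext {k : Type} [Field k] {N : ℕ} {x y : KK k N}
    (h : ∀ α n, cf (coeff α x) n = cf (coeff α y) n) : x = y :=
  MvPowerSeries.ext fun α => LS.ext fun n => h α n

theorem DF : DF_stmt := by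
  intro k _ N
  refine ⟨?_, ?_, ?_, ?_, ?_, ?_, ?_, ?_, ?_, ?_, ?_⟩
  · refine DF_ext fun α n => ?_
    rw [DF_c, cf_one, MvPowerSeries.coeff_one]
    by_cases h1 : n = 0 <;> by_cases h2 : α = 0 <;> simp [h1, h2, MvPowerSeries.coeff_one, cf_one]
  · intro f g
    refine DF_ext fun α n => ?_
    rw [DF_c, map_add, cf_add, cf_add, DF_c, DF_c, map_add]
  · intro f g
    refine DF_ext fun α n => ?_
    obtain ⟨a, ha⟩ := exists_lb f
    obtain ⟨b, hb⟩ := exists_lb g
    rw [DF_c, cf_mul_finset f g n ha hb, map_sum, MvPowerSeries.coeff_mul, cf_sum]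
    have h1 : ∀ q ∈ Finset.HasAntidiagonal.antidiagonal α,
        cf (coeff q.1 (sw f) * coeff q.2 (sw g)) n =
        ∑ i ∈ Finset.Icc a (n - b), coeff q.1 (cf f i) * coeff q.2 (cf g (n - i)) := by
      intro q _
      exact cf_mul_finset _ _ n (cm_mem_GE _ ha) (cm_mem_GE _ hb)
    rw [Finset.sum_congr rfl h1, Finset.sum_comm]
    refine Finset.sum_congr rfl fun i _ => ?_
    rw [MvPowerSeries.coeff_mul]
  · intro f g h
    refine LS.ext fun n => MvPowerSeries.ext fun α => ?_
    rw [← DF_c, ← DF_c, h]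
  · intro f
    refine MvPowerSeries.ext fun α => ?_
    exact dd_cm _ f
  · intro f
    rfl
  · intro i f
    refine DF_ext fun α n => ?_
    rw [DF_c, cf_cD, pdB_apply, MvPowerSeries.coeff_pderiv, MvPowerSeries.coeff_pderiv]
    have h1 : ((α i : LS k) + 1) = LS.C ((α i : k) + 1) := by
      rw [map_add, map_natCast, map_one]
    rw [h1, mul_comm, cf_C_mul, DF_c, mul_comm]
  · intro b
    refine DF_ext fun α n => ?_
    rw [DF_c, cf_C]
    show _ = cf (LS.C (coeff α b)) n
    rw [cf_C]
    split_ifs <;> simp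
  · intro n c
    refine DF_ext fun α m => ?_
    rw [DF_c, cf_mono, MvPowerSeries.coeff_C]
    by_cases h1 : m = n <;> by_cases h2 : α = 0 <;> simp [h1, h2, MvPowerSeries.coeff_C, cf_mono]
  · intro m f
    constructor
    · intro h α n hn
      rw [DF_c, h n hn, map_zero]
    · intro h n hn
      refine MvPowerSeries.ext fun α => ?_
      rw [← DF_c, h α n hn, map_zero]
  · intro m x hx
    refine ⟨ofFun (fun n => (fun α => cf (coeff α x) n : BB k N)) m fun n hn => ?_, ?_⟩
    · refine MvPowerSeries.ext fun α => ?_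
      exact hx α n hn
    · refine DF_ext fun α n => ?_
      rw [DF_c, cf_ofFun]
      rfl

end AN
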