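import Pool.Agent.helper48.AN.SpecF

/-! # Project an, module FC0: change of the coordinate -/

namespace AN

open scoped Classical
open MvPowerSeries (constantCoeff coeff)

/-! ## a residue identity over every commutative ring -/

theorem FC0_res {R : Type} [CommRing R] (v : LS R) (j : ℕ) (hj : 1 ≤ j) :
    res (mono (-1 - j) (1 : R) * v ^ j) = res (mono (-(j : ℤ)) (1 : R) * (v ^ (j - 1) * dd v)) := by
  obtain ⟨N, hN⟩ := exists_lb v
  let φ : MvPolynomial ℤ ℤ →+* R := MvPolynomial.eval₂Hom (Int.castRingHom R) fun n => cf v n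
  let V : LS (MvPolynomial ℤ ℤ) := ofFun (fun n => if n < N then 0 else MvPolynomial.X n) N
    fun n hn => if_pos hn
  have hV : mp φ V = v := by
    ext n
    rw [cf_mp, cf_ofFun]
    split_ifs with h
    · rw [map_zero, hN n h]
    · simp [φ]
  have key : res (mono (-1 - j) (1 : MvPolynomial ℤ ℤ) * V ^ j) =
      res (mono (-(j : ℤ)) (1 : MvPolynomial ℤ ℤ) * (V ^ (j - 1) * dd V)) := by
    have h1 := res_dd (mono (-(j : ℤ)) (1 : MvPolynomial ℤ ℤ) * V ^ j)
    rw [dd_mul, dd_mono, dd_pow, res_add] at h1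
    have h2 : mono (-(j : ℤ) - 1) (((-(j : ℤ) : ℤ) : MvPolynomial ℤ ℤ) * 1) =
        LS.C (-(j : MvPolynomial ℤ ℤ)) * mono (-1 - j) (1 : MvPolynomial ℤ ℤ) := by
      rw [C_mul, smul_mono]
      congr 1
      · ring
      · push_cast
        ring
    have h3 : (j : LS (MvPolynomial ℤ ℤ)) = LS.C (j : MvPolynomial ℤ ℤ) := by
      rw [map_natCast]
    rw [h2, h3] at h1
    have h4 : LS.C (-(j : MvPolynomial ℤ ℤ)) * mono (-1 - (j : ℤ)) 1 * V ^ j =
        (-(j : MvPolynomial ℤ ℤ)) • (mono (-1 - (j : ℤ)) 1 * V ^ j) := by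
      rw [← C_mul, mul_assoc]
    have h5 : mono (-(j : ℤ)) 1 * (LS.C (j : MvPolynomial ℤ ℤ) * V ^ (j - 1) * dd V) =
        (j : MvPolynomial ℤ ℤ) • (mono (-(j : ℤ)) 1 * (V ^ (j - 1) * dd V)) := by
      rw [← C_mul]
      ring
    rw [h4, h5, res_smul, res_smul] at h1
    have h6 : (j : MvPolynomial ℤ ℤ) ≠ 0 := by
      exact_mod_cast (show j ≠ 0 by omega)
    have h7 : (j : MvPolynomial ℤ ℤ) * (res (mono (-1 - j) (1 : MvPolynomial ℤ ℤ) * V ^ j) -
      res (mono (-(j : ℤ)) (1 : MvPolynomial ℤ ℤ) * (V ^ (j - 1) * dd V))) = 0 := by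
      linear_combination -h1
    rcases mul_eq_zero.1 h7 with h8 | h8
    · exact absurd h8 h6
    · exact sub_eq_zero.1 h8
  have h1 := congrArg φ key
  rw [← res_mp, ← res_mp, map_mul, map_mul, map_mul, map_pow, map_pow, ← dd_mp, mp_mono, mp_mono,
    map_one, hV] at h1
  exact h1

/-! ## orders of the powers -/

theorem FC0_inv {k : Type} [Field k] {σ : LS k} (h1 : σ ∈ GE k 1) (h2 : cf σ 1 ≠ 0) :
    σ⁻¹ ∈ GE k (-1) ∧ cf σ⁻¹ (-1) * cf σ 1 = 1 := by
  have h0 : σ ≠ 0 := by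
    rintro rfl
    exact h2 (cf_zero 1)
  have h3 : σ⁻¹ * σ = 1 := inv_mul_cancel₀ h0
  have h4 : σ⁻¹ ∈ GE k (-1) := by
    by_contra hc
    obtain ⟨N, hN⟩ := exists_lb σ⁻¹
    -- the lowest term
    have h5 : ∃ n, n < -1 ∧ cf σ⁻¹ n ≠ 0 := by
      by_contra h6
      push Not at h6
      exact hc h6
    obtain ⟨n, hn, hn'⟩ := h5
    have h6 : ∃ m : ℤ, cf σ⁻¹ m ≠ 0 ∧ ∀ m', cf σ⁻¹ m' ≠ 0 → m ≤ m' := by
      obtain ⟨m, hm, hm'⟩ := Int.exists_least_of_bdd (P := fun m => cf σ⁻¹ m ≠ 0)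
        ⟨N, fun z hz => by
          by_contra h7
          exact hz (hN z (by omega))⟩ ⟨n, hn'⟩
      exact ⟨m, hm, hm'⟩
    obtain ⟨m, hm, hm'⟩ := h6
    have h7 : σ⁻¹ ∈ GE k m := by
      intro i hi
      by_contra h8
      have := hm' i h8
      omega
    have h8 := cf_mul_lead h7 h1
    rw [h3, cf_one, if_neg (by have := hm' n hn'; omega)] at h8
    exact mul_ne_zero hm h2 h8.symm
  refine ⟨h4, ?_⟩
  have h5 := cf_mul_lead h4 h1
  rw [h3, cf_one, if_pos (by norm_num)] at h5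
  exact h5.symm

theorem FC0_zpow {k : Type} [Field k] {σ : LS k} (h1 : σ ∈ GE k 1) (h2 : cf σ 1 ≠ 0) (n : ℤ) :
    σ ^ n ∈ GE k n ∧ cf (σ ^ n) n ≠ 0 := by
  have h0 : σ ≠ 0 := by
    rintro rfl
    exact h2 (cf_zero 1)
  obtain ⟨h3, h4⟩ := FC0_inv h1 h2
  have h5 : cf σ⁻¹ (-1) ≠ 0 := left_ne_zero_of_mul_eq_one h4
  induction n with
  | zero =>
    rw [zpow_zero]
    exact ⟨one_mem_PS, by rw [cf_one, if_pos rfl]; exact one_ne_zero⟩
  | succ i ih =>
    rw [zpow_add_one₀ h0]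
    exact ⟨GE_mul ih.1 h1, by rw [cf_mul_lead ih.1 h1]; exact mul_ne_zero ih.2 h2⟩
  | pred i ih =>
    rw [zpow_sub_one₀ h0, sub_eq_add_neg]
    exact ⟨GE_mul ih.1 h3, by rw [cf_mul_lead ih.1 h3]; exact mul_ne_zero ih.2 h5⟩

/-- additive maps which are continuous are determined by the monomials -/
theorem FC0_ext {k : Type} [Field k] (T : LS k →+ LS k) (c : ℤ)
    (h : ∀ m f, f ∈ GE k m → T f ∈ GE k (m - c)) (h0 : ∀ n a, T (mono n a) = 0) (f : LS k) :
    T f = 0 := by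
  ext n
  rw [cf_zero]
  obtain ⟨a, ha⟩ := exists_lb f
  let P : LS k := ∑ i ∈ Finset.Icc a (n + c), mono i (cf f i)
  have hP : T P = 0 := by
    simp only [P, map_sum]
    exact Finset.sum_eq_zero fun i _ => h0 i _
  have hQ : f - P ∈ GE k (n + c + 1) := by
    intro m hm
    rw [cf_sub]
    simp only [P, cf_sum, cf_mono]
    rw [Finset.sum_ite_eq]
    by_cases h3 : m ∈ Finset.Icc a (n + c)
    · rw [if_pos h3, sub_self]
    · rw [if_neg h3, sub_zero]
      rw [Finset.mem_Icc] at h3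
      exact ha m (by omega)
  have h4 : T f = T (f - P) := by
    rw [map_sub, hP, sub_zero]
  rw [h4]
  exact h _ _ hQ n (by omega)

/-! ## the substitution -/

noncomputable section

variable {k : Type} [Field k]

/-- the substitution, with a bound -/
def FC0_S0 (σ : LS k) (_ : σ ∈ GE k 1) (_ : cf σ 1 ≠ 0) (f : LS k) : LS k :=
  ofFun (fun m => ∑ n ∈ Finset.Icc (exists_lb f).choose m, cf f n * cf (σ ^ n) m)
    (exists_lb f).choose fun m hm => by
      rw [Finset.Icc_eq_empty (by omega), Finset.sum_empty]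

theorem FC0_cf (σ : LS k) (h1 : σ ∈ GE k 1) (h2 : cf σ 1 ≠ 0) {a : ℤ} {f : LS k}
    (hf : f ∈ GE k a) (m b : ℤ) (hb : m ≤ b) :
    cf (FC0_S0 σ h1 h2 f) m = ∑ n ∈ Finset.Icc a b, cf f n * cf (σ ^ n) m := by
  unfold FC0_S0
  rw [cf_ofFun]
  have hz : ∀ n, m < n → cf f n * cf (σ ^ n) m = 0 := by
    intro n hn
    rw [(FC0_zpow h1 h2 n).1 m hn, mul_zero]
  have hl := (exists_lb f).choose_spec
  generalize (exists_lb f).choose = N at hl
  have e1 : ∑ n ∈ Finset.Icc N m, cf f n * cf (σ ^ n) m =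
      ∑ n ∈ Finset.Icc (min N a) b, cf f n * cf (σ ^ n) m := by
    refine Finset.sum_subset ?_ ?_
    · intro n hn
      rw [Finset.mem_Icc] at hn ⊢
      omega
    · intro n hn hn'
      rw [Finset.mem_Icc] at hn hn'
      rcases lt_or_ge n N with h3 | h3
      · rw [hl n h3, zero_mul]
      · exact hz n (by omega)
  have e2 : ∑ n ∈ Finset.Icc a b, cf f n * cf (σ ^ n) m =
      ∑ n ∈ Finset.Icc (min N a) b, cf f n * cf (σ ^ n) m := by
    refine Finset.sum_subset ?_ ?_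
    · intro n hn
      rw [Finset.mem_Icc] at hn ⊢
      omega
    · intro n hn hn'
      rw [Finset.mem_Icc] at hn hn'
      rw [hf n (by omega), zero_mul]
  rw [e1, e2]

/-- the substitution as an additive map -/
def FC0_S (σ : LS k) (h1 : σ ∈ GE k 1) (h2 : cf σ 1 ≠ 0) : LS k →+ LS k where
  toFun := FC0_S0 σ h1 h2
  map_zero' := by
    ext m
    rw [FC0_cf σ h1 h2 (a := 0) (zero_mem _) m m le_rfl, cf_zero]
    exact Finset.sum_eq_zero fun n _ => by rw [cf_zero, zero_mul]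
  map_add' f g := by
    ext m
    obtain ⟨a, ha⟩ := exists_lb f
    obtain ⟨b, hb⟩ := exists_lb g
    have ha' : f ∈ GE k (min a b) := fun n hn => ha n (by omega)
    have hb' : g ∈ GE k (min a b) := fun n hn => hb n (by omega)
    rw [cf_add, FC0_cf σ h1 h2 (add_mem ha' hb') m m le_rfl, FC0_cf σ h1 h2 ha' m m le_rfl,
      FC0_cf σ h1 h2 hb' m m le_rfl, ← Finset.sum_add_distrib]
    exact Finset.sum_congr rfl fun n _ => by rw [cf_add]; ring

theorem FC0_S_GE (σ : LS k) (h1 : σ ∈ GE k 1) (h2 : cf σ 1 ≠ 0) {a : ℤ} {f : LS k}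
    (hf : f ∈ GE k a) : FC0_S σ h1 h2 f ∈ GE k a := by
  intro m hm
  show cf (FC0_S0 σ h1 h2 f) m = 0
  rw [FC0_cf σ h1 h2 hf m m le_rfl, Finset.Icc_eq_empty (by omega), Finset.sum_empty]

theorem FC0_S_lead (σ : LS k) (h1 : σ ∈ GE k 1) (h2 : cf σ 1 ≠ 0) {a : ℤ} {f : LS k}
    (hf : f ∈ GE k a) : cf (FC0_S σ h1 h2 f) a = cf f a * cf (σ ^ a) a := by
  show cf (FC0_S0 σ h1 h2 f) a = _
  rw [FC0_cf σ h1 h2 hf a a le_rfl, Finset.Icc_self, Finset.sum_singleton]

theorem FC0_S_mono (σ : LS k) (h1 : σ ∈ GE k 1) (h2 : cf σ 1 ≠ 0) (n : ℤ) (c : k) :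
    FC0_S σ h1 h2 (mono n c) = LS.C c * σ ^ n := by
  ext m
  show cf (FC0_S0 σ h1 h2 (mono n c)) m = _
  rw [FC0_cf σ h1 h2 (mono_mem_GE n c) m (max n m) (le_max_right _ _), cf_C_mul,
    Finset.sum_eq_single n]
  · rw [cf_mono, if_pos rfl]
  · intro i _ hi
    rw [cf_mono, if_neg hi, zero_mul]
  · intro h
    exact absurd (Finset.mem_Icc.2 ⟨le_rfl, le_max_left _ _⟩) h

theorem FC0_S_mul (σ : LS k) (h1 : σ ∈ GE k 1) (h2 : cf σ 1 ≠ 0) (f g : LS k) :
    FC0_S σ h1 h2 (f * g) = FC0_S σ h1 h2 f * FC0_S σ h1 h2 g := by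
  have h0 : σ ≠ 0 := by
    rintro rfl
    exact h2 (cf_zero 1)
  -- for fixed g, T f = S (f g) - S f S g
  let T : LS k → LS k →+ LS k := fun g =>
    (FC0_S σ h1 h2).comp (AddMonoidHom.mulRight g) -
      (AddMonoidHom.mulRight (FC0_S σ h1 h2 g)).comp (FC0_S σ h1 h2)
  have hT : ∀ f g, T g f = FC0_S σ h1 h2 (f * g) - FC0_S σ h1 h2 f * FC0_S σ h1 h2 g := fun _ _ => rfl
  have hcont : ∀ g a, g ∈ GE k a → ∀ m f, f ∈ GE k m → T g f ∈ GE k (m - -a) := by
    intro g a hg m f hf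
    rw [hT, sub_neg_eq_add]
    exact sub_mem (FC0_S_GE σ h1 h2 (GE_mul hf hg))
      (GE_mul (FC0_S_GE σ h1 h2 hf) (FC0_S_GE σ h1 h2 hg))
  have hmm : ∀ (n m : ℤ) (a b : k), T (mono n a) (mono m b) = 0 := by
    intro n m a b
    rw [hT, mono_mul_mono, FC0_S_mono, FC0_S_mono, FC0_S_mono, map_mul, zpow_add₀ h0]
    ring
  have hm1 : ∀ (n : ℤ) (a : k) (f : LS k), T (mono n a) f = 0 := by
    intro n a f
    exact FC0_ext (T (mono n a)) (-n) (hcont _ n (mono_mem_GE n a)) (fun m b => hmm n m a b) f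
  obtain ⟨a, ha⟩ := exists_lb g
  have h3 : T g f = 0 := by
    refine FC0_ext (T g) (-a) (hcont g a ha) (fun m b => ?_) f
    have h4 := hm1 m b g
    rw [hT] at h4 ⊢
    rw [mul_comm (mono m b) g, mul_comm (FC0_S σ h1 h2 (mono m b))]
    exact h4
  rw [hT] at h3
  exact sub_eq_zero.1 h3

theorem FC0_S_one (σ : LS k) (h1 : σ ∈ GE k 1) (h2 : cf σ 1 ≠ 0) : FC0_S σ h1 h2 1 = 1 := by
  have h3 : (1 : LS k) = mono 0 1 := by
    rw [← C_eq_mono, map_one]
  have h4 := FC0_S_mono σ h1 h2 0 1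
  rw [zpow_zero, mul_one, map_one, ← h3] at h4
  exact h4

/-- the solution of a triangular system -/
def FC0_F (G : ℕ → k) (c : ℕ → ℕ → k) : ℕ → k
  | i => (G i - ∑ j : Fin i, FC0_F G c j * c j i) / c i i
termination_by i => i
decreasing_by exact j.2

theorem FC0_F_eq (G : ℕ → k) (c : ℕ → ℕ → k) (i : ℕ) (h : c i i ≠ 0) :
    ∑ j ∈ Finset.range (i + 1), FC0_F G c j * c j i = G i := by
  rw [Finset.sum_range_succ]
  have h1 : FC0_F G c i * c i i = G i - ∑ j : Fin i, FC0_F G c j * c j i := by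
    conv_lhs => rw [FC0_F]
    exact div_mul_cancel₀ _ h
  rw [h1, ← Fin.sum_univ_eq_sum_range fun j => FC0_F G c j * c j i]
  ring

theorem FC0_surj (σ : LS k) (h1 : σ ∈ GE k 1) (h2 : cf σ 1 ≠ 0) :
    Function.Surjective (FC0_S σ h1 h2) := by
  intro g
  obtain ⟨a, ha⟩ := exists_lb g
  set G : ℕ → k := fun i => cf g (a + i) with hG
  set c : ℕ → ℕ → k := fun j i => cf (σ ^ (a + (j : ℤ))) (a + i) with hc
  set f : LS k := ofFun (fun n => if n < a then 0 else FC0_F G c (n - a).toNat) a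
    fun n hn => if_pos hn with hf
  have hfa : f ∈ GE k a := by
    intro n hn
    rw [hf, cf_ofFun, if_pos hn]
  refine ⟨f, ?_⟩
  ext m
  rcases lt_or_ge m a with hm | hm
  · rw [FC0_S_GE σ h1 h2 hfa m hm, ha m hm]
  · obtain ⟨i, rfl⟩ : ∃ i : ℕ, m = a + i := ⟨(m - a).toNat, by omega⟩
    show cf (FC0_S0 σ h1 h2 f) (a + i) = _
    rw [FC0_cf σ h1 h2 hfa (a + i) (a + i) le_rfl]
    have e := FC0_F_eq G c i (FC0_zpow h1 h2 (a + (i : ℤ))).2
    have e1 : ∑ n ∈ Finset.Icc a (a + (i : ℤ)), cf f n * cf (σ ^ n) (a + i) =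
        ∑ j ∈ Finset.range (i + 1), FC0_F G c j * c j i := by
      symm
      refine Finset.sum_bij (fun j _ => a + (j : ℤ)) ?_ ?_ ?_ ?_
      · intro j hj
        rw [Finset.mem_range] at hj
        rw [Finset.mem_Icc]
        omega
      · intro j _ j' _ h
        simpa using h
      · intro n hn
        rw [Finset.mem_Icc] at hn
        exact ⟨(n - a).toNat, by rw [Finset.mem_range]; omega, by omega⟩
      · intro j _
        rw [hf, cf_ofFun, if_neg (by omega), hc]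
        simp
    rw [e1, e]

theorem FC0_dd (σ : LS k) (h1 : σ ∈ GE k 1) (h2 : cf σ 1 ≠ 0) (f : LS k) :
    dd (FC0_S σ h1 h2 f) = FC0_S σ h1 h2 (dd f) * dd σ := by
  let T : LS k →+ LS k := (dd (R := k)).toAddMonoidHom.comp (FC0_S σ h1 h2) -
    (AddMonoidHom.mulRight (dd σ)).comp ((FC0_S σ h1 h2).comp (dd (R := k)).toAddMonoidHom)
  have hT : ∀ f, T f = dd (FC0_S σ h1 h2 f) - FC0_S σ h1 h2 (dd f) * dd σ := fun _ => rfl
  have h3 : T f = 0 := by
    refine FC0_ext T 1 (fun m f hf => ?_) (fun n c => ?_) f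
    · rw [hT]
      refine sub_mem (dd_mem_GE (FC0_S_GE σ h1 h2 hf)) ?_
      have := GE_mul (FC0_S_GE σ h1 h2 (dd_mem_GE hf)) (dd_mem_GE h1)
      rw [sub_self, add_zero] at this
      exact this
    · rw [hT, FC0_S_mono, dd_mono, FC0_S_mono]
      have h4 : dd (σ ^ n) = (n : LS k) * σ ^ (n - 1) * dd σ := by
        have := (ddD k).leibniz_zpow σ n
        rw [ddD_apply, ddD_apply] at this
        rw [this]
        simp [mul_assoc]
      rw [C_mul, map_smul, h4, ← C_mul, map_mul, map_intCast]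
      ring
  rw [hT] at h3
  exact sub_eq_zero.1 h3

theorem FC0_monoinv (i : ℕ) : (mono (-(i : ℤ)) 1 : LS k) = (mono (-1) 1) ^ i := by
  induction i with
  | zero =>
    rw [pow_zero, ← map_one (LS.C (R := k)), C_eq_mono]
    rfl
  | succ i ih =>
    rw [pow_succ, ← ih, mono_mul_mono]
    congr 1
    · push_cast
      ring
    · ring

theorem FC0_key (σ : LS k) (h1 : σ ∈ GE k 1) (h2 : cf σ 1 ≠ 0) (n : ℤ) :
    res (σ ^ n * dd σ) = if n = -1 then 1 else 0 := by
  have h0 : σ ≠ 0 := by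
    rintro rfl
    exact h2 (cf_zero 1)
  obtain ⟨h3, h4⟩ := FC0_inv h1 h2
  have hd : dd σ ∈ GE k 0 := dd_mem_GE h1
  rcases lt_trichotomy n (-1) with hn | hn | hn
  · rw [if_neg (by omega)]
    obtain ⟨i, rfl⟩ : ∃ i : ℕ, n = -((i : ℤ) + 2) := ⟨(-n - 2).toNat, by omega⟩
    set s : LS k := mono 1 1 with hs
    set S' : LS k := mono (-1) 1 with hS'
    have h_s : S' * s = 1 := by
      rw [hs, hS', mono_mul_mono, ← map_one (LS.C (R := k)), C_eq_mono]
      norm_num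
    set v : LS k := s * σ⁻¹ with hv
    have h_v : v * σ = s := by
      rw [hv, mul_assoc, inv_mul_cancel₀ h0, mul_one]
    have h_d : v * dd σ + σ * dd v = 1 := by
      have h5 := congrArg dd h_v
      rw [dd_mul, hs, dd_mono] at h5
      have h6 : (mono (1 - 1) (((1 : ℤ) : k) * 1) : LS k) = 1 := by
        rw [← map_one (LS.C (R := k)), C_eq_mono]
        norm_num
      rw [h6] at h5
      rw [← h5]
      ring
    have h_i : σ⁻¹ = S' * v := by
      rw [hv, ← mul_assoc, h_s, one_mul]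
    have e : σ ^ (-((i : ℤ) + 2)) * dd σ =
        S' ^ (i + 2) * v ^ (i + 1) - S' ^ (i + 1) * (v ^ i * dd v) := by
      have e1 : σ ^ (-((i : ℤ) + 2)) = (S' * v) ^ (i + 2) := by
        rw [← h_i, zpow_neg, inv_pow]
        congr 1
      rw [e1]
      linear_combination (S' ^ (i + 2) * v ^ (i + 1)) * h_d - (S' ^ (i + 2) * v ^ i * dd v) * h_v -
        (S' ^ (i + 1) * v ^ i * dd v) * h_s
    have e2 := FC0_res v (i + 1) (by omega)
    have e3 : (-1 - ((i + 1 : ℕ) : ℤ)) = -((i + 2 : ℕ) : ℤ) := by push_cast; ring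
    rw [e3, FC0_monoinv, FC0_monoinv, Nat.add_sub_cancel] at e2
    rw [e, res_sub, e2, sub_self]
  · subst hn
    rw [if_pos rfl, zpow_neg_one]
    have h5 := cf_mul_lead h3 hd
    unfold res
    rw [show (-1 : ℤ) = -1 + 0 by norm_num]
    rw [show cf (σ⁻¹ * dd σ) (-1 + 0) = cf σ⁻¹ (-1) * cf (dd σ) 0 from h5, cf_dd]
    rw [← h4]
    norm_num
  · rw [if_neg (by omega)]
    have h5 := GE_mul (FC0_zpow h1 h2 n).1 hd
    exact h5 (-1) (by omega)

theorem FC0_resS (σ : LS k) (h1 : σ ∈ GE k 1) (h2 : cf σ 1 ≠ 0) (f : LS k) :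
    res (FC0_S σ h1 h2 f * dd σ) = res f := by
  have hd : dd σ ∈ GE k 0 := dd_mem_GE h1
  let T : LS k →+ LS k :=
    { toFun := fun f => LS.C (res (FC0_S σ h1 h2 f * dd σ) - res f)
      map_zero' := by
        rw [map_zero, zero_mul, sub_self, map_zero]
      map_add' := fun f g => by
        rw [map_add, add_mul, res_add, res_add, ← map_add]
        congr 1
        ring }
  have hT : ∀ f, T f = LS.C (res (FC0_S σ h1 h2 f * dd σ) - res f) := fun _ => rfl
  have h3 : T f = 0 := by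
    refine FC0_ext T 0 (fun m f hf => ?_) (fun n c => ?_) f
    · rw [hT, sub_zero]
      rcases lt_or_ge m 0 with hm | hm
      · exact GE_mono hm.le (C_mem_PS _)
      · have h4 : res f = 0 := hf (-1) (by omega)
        have h5 : res (FC0_S σ h1 h2 f * dd σ) = 0 :=
          GE_mul (FC0_S_GE σ h1 h2 hf) hd (-1) (by omega)
        rw [h4, h5, sub_zero, map_zero]
        exact zero_mem _
    · rw [hT, FC0_S_mono, mul_assoc, C_mul, res_smul, FC0_key σ h1 h2 n]
      unfold res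
      rw [cf_mono]
      by_cases hn : n = -1
      · rw [if_pos hn, if_pos hn.symm, mul_one, sub_self, map_zero]
      · rw [if_neg hn, if_neg (fun h => hn h.symm), mul_zero, sub_self, map_zero]
  rw [hT] at h3
  have h4 : cf (LS.C (res (FC0_S σ h1 h2 f * dd σ) - res f)) 0 = 0 := by
    rw [h3, cf_zero]
  rw [cf_C, if_pos rfl] at h4
  exact sub_eq_zero.1 h4

end

theorem FC0 : FC0_stmt := by
  intro k _ σ h1 h2
  let R : LS k →+* LS k :=
    { toFun := FC0_S σ h1 h2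
      map_one' := FC0_S_one σ h1 h2
      map_mul' := FC0_S_mul σ h1 h2
      map_zero' := map_zero _
      map_add' := map_add _ }
  have hinj : Function.Injective R := R.injective
  refine ⟨RingEquiv.ofBijective R ⟨hinj, FC0_surj σ h1 h2⟩, ?_, ?_, ?_, ?_, ?_⟩
  · intro c
    show FC0_S σ h1 h2 (LS.C c) = LS.C c
    rw [C_eq_mono, FC0_S_mono, zpow_zero, mul_one, C_eq_mono]
  · show FC0_S σ h1 h2 (mono 1 1) = σ
    rw [FC0_S_mono, map_one, one_mul, zpow_one]
  · intro m f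
    show f ∈ GE k m ↔ FC0_S σ h1 h2 f ∈ GE k m
    constructor
    · exact FC0_S_GE σ h1 h2
    · intro h
      by_contra hc
      obtain ⟨N, hN⟩ := exists_lb f
      have h5 : ∃ n, n < m ∧ cf f n ≠ 0 := by
        by_contra h6
        push Not at h6
        exact hc h6
      obtain ⟨n, hn, hn'⟩ := h5
      obtain ⟨i, hi, hi'⟩ := Int.exists_least_of_bdd (P := fun i => cf f i ≠ 0)
        ⟨N, fun z hz => by
          by_contra h7
          exact hz (hN z (by omega))⟩ ⟨n, hn'⟩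
      have h7 : f ∈ GE k i := by
        intro j hj
        by_contra h8
        have := hi' j h8
        omega
      have h8 := FC0_S_lead σ h1 h2 h7
      rw [h i (by have := hi' n hn'; omega)] at h8
      exact mul_ne_zero hi (FC0_zpow h1 h2 i).2 h8.symm
  · intro f
    exact FC0_dd σ h1 h2 f
  · intro f
    exact FC0_resS σ h1 h2 f

end AN
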