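import Pool.Agent.helper48.AN.SpecZ

/-! # Project an, module ZB: the genus is the number of gaps -/

namespace AN

open scoped Classical
open Pool.Agent.helper53.AU

theorem ZB (hA : ZA_stmt) (h0 : ZB0_stmt) (h1 : ZB1_stmt) (h2 : ZB2_stmt) (hS : FS_stmt) :
    ZB_stmt := by
  intro p _ K _ _ _ g γ a ha
  have hFF : IsFF K (EF γ a) := hA K g γ a ha
  obtain ⟨g', hg'⟩ := aQR2 K (EF γ a) hFF
  obtain ⟨P₀, hP₀⟩ := h0 K g γ a ha
  obtain ⟨γ', a', ha', h3⟩ := hS p K (EF γ a) hFF g' hg' P₀ _ hP₀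
  have h4 : AA γ a = AA γ' a' := by
    ext x
    rw [h3 x, h1 p K g γ a ha P₀ hP₀ x]
  have h5 : g' = g := (h2 K g g' γ γ' a a' ha ha' h4).symm
  exact h5 ▸ hg'

end AN
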